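import Mathlib
import Pool.Agent.R828.LinCoarse

/-!
# Linearly ordered coarse spaces and interval bases (MP_54b381_gt)

Every linearly ordered coarse space is asymorphic, by an order preserving map, to a subspace of a
linearly ordered coarse space whose coarse structure has an interval base.
-/

namespace Pool.Agent.Results.MP_54b381_gt.IntervalExtension

open Set

universe u

/-- `E ∘ F = {(x,z) : ∃ y, (x,y) ∈ E, (y,z) ∈ F}`. -/
def compo {X : Type u} (E F : Set (X × X)) : Set (X × X) := {p | ∃ y, (p.1, y) ∈ E ∧ (y, p.2) ∈ F}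

/-- `E⁻¹`. -/
def inve {X : Type u} (E : Set (X × X)) : Set (X × X) := {p | (p.2, p.1) ∈ E}

/-- A coarse structure. -/
structure CoarseStr (X : Type u) where
  /-- the family of entourages -/
  ent : Set (Set (X × X))
  /-- each entourage contains the diagonal -/
  diag : ∀ E ∈ ent, ∀ x, (x, x) ∈ E
  /-- closed under composition -/
  comp : ∀ E ∈ ent, ∀ F ∈ ent, compo E F ∈ ent
  /-- closed under inverses -/
  inv : ∀ E ∈ ent, inve E ∈ ent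
  /-- closed under subsets which contain the diagonal -/
  down : ∀ E ∈ ent, ∀ E', (∀ x, (x, x) ∈ E') → E' ⊆ E → E' ∈ ent

namespace CoarseStr

variable {X : Type u}

/-- Connected coarse spaces. -/
def Connected (𝓔 : CoarseStr X) : Prop := ∀ x y, ∃ E ∈ 𝓔.ent, (x, y) ∈ E

/-- The linear order of `X` is compatible with the coarse structure: for every `E` there is `F`
such that if `x < y` and `y ∉ F[x]` then every `x' ∈ E[x]` satisfies `x' < y`. -/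
def Compatible [LinearOrder X] (𝓔 : CoarseStr X) : Prop :=
  ∀ E ∈ 𝓔.ent, ∃ F ∈ 𝓔.ent, ∀ x y, x < y → (x, y) ∉ F → ∀ x', (x, x') ∈ E → x' < y

/-- The coarse structure has a base all of whose balls are intervals `[a,b]`, `a ≤ b`. -/
def HasIntervalBase [LinearOrder X] (𝓔 : CoarseStr X) : Prop :=
  ∃ ℬ ⊆ 𝓔.ent, (∀ E ∈ 𝓔.ent, ∃ E' ∈ ℬ, E ⊆ E') ∧
    ∀ E' ∈ ℬ, ∀ x, ∃ a b, a ≤ b ∧ {y | (x, y) ∈ E'} = Set.Icc a b

/-- The subspace coarse structure on `Y`: all sets `E ∩ (Y × Y)`. -/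
def sub (𝓔 : CoarseStr X) (Y : Set X) : CoarseStr Y where
  ent := {E' | ∃ E ∈ 𝓔.ent, E' = {p : Y × Y | ((p.1 : X), (p.2 : X)) ∈ E}}
  diag := by
    rintro _ ⟨E, hE, rfl⟩ x
    exact 𝓔.diag E hE x
  comp := by
    rintro _ ⟨E, hE, rfl⟩ _ ⟨F, hF, rfl⟩
    refine ⟨{p | p ∈ compo E F ∧ (p.1 = p.2 ∨ ∃ y ∈ Y, (p.1, y) ∈ E ∧ (y, p.2) ∈ F)},
      𝓔.down _ (𝓔.comp E hE F hF) _ ?_ (fun p hp => hp.1), ?_⟩
    · intro x
      exact ⟨⟨x, 𝓔.diag E hE x, 𝓔.diag F hF x⟩, Or.inl rfl⟩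
    · ext ⟨x, z⟩
      constructor
      · rintro ⟨y, h1, h2⟩
        exact ⟨⟨y, h1, h2⟩, Or.inr ⟨y, y.2, h1, h2⟩⟩
      · rintro ⟨_, h | ⟨y, hy, h1, h2⟩⟩
        · have h3 : x = z := Subtype.ext h
          subst h3
          exact ⟨x, 𝓔.diag E hE x, 𝓔.diag F hF x⟩
        · exact ⟨⟨y, hy⟩, h1, h2⟩
  inv := by
    rintro _ ⟨E, hE, rfl⟩
    exact ⟨_, 𝓔.inv E hE, rfl⟩
  down := by
    rintro _ ⟨E, hE, rfl⟩ E' hE' hsub
    refine ⟨{p | p ∈ E ∧ (p.1 = p.2 ∨ ∃ h1 : p.1 ∈ Y, ∃ h2 : p.2 ∈ Y,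
      ((⟨p.1, h1⟩, ⟨p.2, h2⟩) : Y × Y) ∈ E')}, 𝓔.down E hE _ ?_ (fun p hp => hp.1), ?_⟩
    · intro x
      exact ⟨𝓔.diag E hE x, Or.inl rfl⟩
    · ext ⟨x, z⟩
      constructor
      · intro h
        exact ⟨hsub h, Or.inr ⟨x.2, z.2, h⟩⟩
      · rintro ⟨_, h | ⟨h1, h2, h⟩⟩
        · have h3 : x = z := Subtype.ext h
          subst h3
          exact hE' x
        · exact h

end CoarseStr

/-- Macro-uniform maps. -/
def MacroUniform {X Y : Type u} (𝓔 : CoarseStr X) (𝓕 : CoarseStr Y) (f : X → Y) : Prop :=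
  ∀ E ∈ 𝓔.ent, ∃ E' ∈ 𝓕.ent, ∀ x y, (x, y) ∈ E → (f x, f y) ∈ E'

open R828.LC

section construction

variable {X : Type u} [LinearOrder X] (𝓔 : CoarseStr X)

/-- Bounded sets. -/
def bdd : Set (Set X) := {S | ∃ D ∈ 𝓔.ent, ∀ a ∈ S, ∀ b ∈ S, (a, b) ∈ D}

/-- The underlying set of the extension. -/
def Zt : Type u := {z : Pos X // Valid (bdd 𝓔) z}

noncomputable instance : LinearOrder (Zt 𝓔) :=
  inferInstanceAs (LinearOrder {z : Pos X // Valid (bdd 𝓔) z})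

/-- The inclusion. -/
def emb (x : X) : Zt 𝓔 := ⟨pos x, Or.inl ⟨x, rfl⟩⟩

/-- The extension of an entourage. -/
def hat (E : Set (X × X)) : Set (Zt 𝓔 × Zt 𝓔) :=
  {p | ∃ A B, Mem p.1.1 A ∧ Mem p.2.1 B ∧ ∀ a ∈ A, ∀ b ∈ B, (a, b) ∈ E}

theorem hat_mono {E F : Set (X × X)} (h : E ⊆ F) : hat 𝓔 E ⊆ hat 𝓔 F := by
  rintro p ⟨A, B, hA, hB, hAB⟩
  exact ⟨A, B, hA, hB, fun a ha b hb => h (hAB a ha b hb)⟩

theorem hat_comp {E F : Set (X × X)} {x y z : Zt 𝓔} (h1 : (x, y) ∈ hat 𝓔 E)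
    (h2 : (y, z) ∈ hat 𝓔 F) : (x, z) ∈ hat 𝓔 (compo E F) := by
  obtain ⟨A, B, hA, hB, hAB⟩ := h1
  obtain ⟨B', C, hB', hC, hBC⟩ := h2
  obtain ⟨b, hb, hb'⟩ := (Mem.inter hB hB').nonempty
  exact ⟨A, C, hA, hC, fun a ha c hc => ⟨b, hAB a ha b hb, hBC b hb' c hc⟩⟩

theorem hat_inv {E : Set (X × X)} {x y : Zt 𝓔} (h : (x, y) ∈ hat 𝓔 E) :
    (y, x) ∈ hat 𝓔 (inve E) := by
  obtain ⟨A, B, hA, hB, hAB⟩ := h
  exact ⟨B, A, hB, hA, fun b hb a ha => hAB a ha b hb⟩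

theorem hat_emb {E : Set (X × X)} {x y : X} : (emb 𝓔 x, emb 𝓔 y) ∈ hat 𝓔 E ↔ (x, y) ∈ E := by
  constructor
  · rintro ⟨A, B, hA, hB, hAB⟩
    exact hAB x (mem_pos.1 hA) y (mem_pos.1 hB)
  · intro h
    refine ⟨{x}, {y}, mem_pos.2 rfl, mem_pos.2 rfl, ?_⟩
    rintro a rfl b rfl
    exact h

theorem sub_comp_left {E F : Set (X × X)} (hF : F ∈ 𝓔.ent) : E ⊆ compo E F :=
  fun p hp => ⟨p.2, hp, 𝓔.diag F hF _⟩

theorem sub_comp_right {E F : Set (X × X)} (hE : E ∈ 𝓔.ent) : F ⊆ compo E F :=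
  fun p hp => ⟨p.1, 𝓔.diag E hE _, hp⟩

/-- The coarse structure of the extension. -/
def ext : CoarseStr (Zt 𝓔) where
  ent := {W | (∀ z, (z, z) ∈ W) ∧ ∃ E ∈ 𝓔.ent, ∀ p ∈ W, p.1 = p.2 ∨ p ∈ hat 𝓔 E}
  diag := fun W hW => hW.1
  comp := by
    rintro W ⟨hW, E, hE, hWE⟩ W' ⟨hW', F, hF, hWF⟩
    refine ⟨fun z => ⟨z, hW z, hW' z⟩, _, 𝓔.comp E hE F hF, ?_⟩
    rintro ⟨x, z⟩ ⟨y, h1, h2⟩
    rcases hWE _ h1 with h3 | h3
    · simp only at h3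
      subst h3
      rcases hWF _ h2 with h4 | h4
      · exact Or.inl h4
      · exact Or.inr (hat_mono 𝓔 (sub_comp_right 𝓔 hE) h4)
    · rcases hWF _ h2 with h4 | h4
      · simp only at h4
        subst h4
        exact Or.inr (hat_mono 𝓔 (sub_comp_left 𝓔 hF) h3)
      · exact Or.inr (hat_comp 𝓔 h3 h4)
  inv := by
    rintro W ⟨hW, E, hE, hWE⟩
    refine ⟨fun z => hW z, _, 𝓔.inv E hE, ?_⟩
    rintro ⟨x, y⟩ h
    rcases hWE _ h with h3 | h3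
    · exact Or.inl h3.symm
    · exact Or.inr (hat_inv 𝓔 h3)
  down := by
    rintro W ⟨hW, E, hE, hWE⟩ W' hW' hsub
    exact ⟨hW', E, hE, fun p hp => hWE p (hsub hp)⟩

/-- Nice entourages: symmetric, and determined by the order-convex hulls of pairs. -/
def Nice (E : Set (X × X)) : Prop :=
  (∀ x y, (x, y) ∈ E → (y, x) ∈ E) ∧
    ∀ a b x y, (a, b) ∈ E → a ≤ x → x ≤ b → a ≤ y → y ≤ b → (x, y) ∈ E

theorem exists_nice (hc : 𝓔.Compatible) {E : Set (X × X)} (hE : E ∈ 𝓔.ent) :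
    ∃ E' ∈ 𝓔.ent, E ⊆ E' ∧ Nice E' := by
  have hS : compo E (inve E) ∈ 𝓔.ent := 𝓔.comp E hE _ (𝓔.inv E hE)
  obtain ⟨F, hF, hF'⟩ := hc _ hS
  let E' : Set (X × X) := {p | ∃ a b, (a, b) ∈ compo E (inve E) ∧ a ≤ p.1 ∧ p.1 ≤ b ∧ a ≤ p.2 ∧
    p.2 ≤ b}
  have key : ∀ a b y, (a, b) ∈ compo E (inve E) → a ≤ y → y ≤ b → (a, y) ∈ F := by
    intro a b y hab hay hyb
    rcases hay.eq_or_lt with rfl | hay
    · exact 𝓔.diag F hF _
    · by_contra hcon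
      exact absurd (hF' a y hay hcon b hab) (not_lt.2 hyb)
  have hsym : ∀ a b, (a, b) ∈ E → (a, b) ∈ compo E (inve E) ∧ (b, a) ∈ compo E (inve E) := by
    intro a b hab
    exact ⟨⟨b, hab, 𝓔.diag E hE b⟩, ⟨b, 𝓔.diag E hE b, hab⟩⟩
  refine ⟨E', 𝓔.down _ (𝓔.comp _ (𝓔.inv F hF) F hF) E' ?_ ?_, ?_, ?_, ?_⟩
  · intro x
    exact ⟨x, x, 𝓔.diag _ hS x, le_rfl, le_rfl, le_rfl, le_rfl⟩
  · rintro ⟨x, y⟩ ⟨a, b, hab, h1, h2, h3, h4⟩
    exact ⟨a, key a b x hab h1 h2, key a b y hab h3 h4⟩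
  · rintro ⟨x, y⟩ hxy
    rcases le_total x y with h | h
    · exact ⟨x, y, (hsym x y hxy).1, le_rfl, h, h, le_rfl⟩
    · exact ⟨y, x, (hsym x y hxy).2, h, le_rfl, le_rfl, h⟩
  · rintro x y ⟨a, b, hab, h1, h2, h3, h4⟩
    exact ⟨a, b, hab, h3, h4, h1, h2⟩
  · rintro a b x y ⟨c, d, hcd, h1, h2, h3, h4⟩ h5 h6 h7 h8
    exact ⟨c, d, hcd, h1.trans h5, h6.trans h4, h1.trans h7, h8.trans h4⟩

/-- The trace on `X` of the ball of `z`. -/
def tr (E : Set (X × X)) (z : Pos X) : Set X := {y | Mem z {x | (x, y) ∈ E}}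

theorem tr_ord {E : Set (X × X)} (hn : Nice E) (z : Pos X) :
    (tr E z).OrdConnected := by
  refine ⟨?_⟩
  intro y₁ h1 y₂ h2 y hy
  refine (Mem.inter h1 h2).mono ?_
  rintro x ⟨hx1, hx2⟩
  rcases le_total x y with h | h
  · exact hn.2 x y₂ x y hx2 le_rfl (h.trans hy.2) h hy.2
  · exact hn.2 y₁ x x y (hn.1 _ _ hx1) (hy.1.trans h) le_rfl hy.1 h

theorem self_mem {E : Set (X × X)} (hn : Nice E) (hd : ∀ x, (x, x) ∈ E) (z : Pos X)
    (hz : Valid (bdd 𝓔) z) (hne : (tr E z).Nonempty) : Mem z (tr E z) := by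
  obtain ⟨y₀, hy₀⟩ := hne
  rcases hz with ⟨x, rfl⟩ | ⟨L, rfl, _⟩ | ⟨L, rfl, _⟩
  · rw [mem_pos]
    exact mem_pos.2 (hd x)
  · obtain ⟨t, ht, ht'⟩ := mem_zero.1 hy₀
    by_cases hyL : y₀ ∈ L
    · have hm : max t y₀ ∈ L := by
        rcases max_choice t y₀ with h1 | h1 <;> rw [h1] <;> assumption
      refine mem_zero.2 ⟨max t y₀, hm, fun y hy hty => mem_zero.2 ⟨max t y₀, hm,
        fun x hx htx => ?_⟩⟩
      have h1 : (max x y, y₀) ∈ E := by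
        refine ht' _ ?_ (((le_max_left _ _).trans htx).trans (le_max_left _ _))
        rcases max_choice x y with h1 | h1 <;> rw [h1] <;> assumption
      exact hn.2 y₀ (max x y) x y (hn.1 _ _ h1) ((le_max_right _ _).trans htx) (le_max_left _ _)
        ((le_max_right _ _).trans hty) (le_max_right _ _)
    · refine mem_zero.2 ⟨t, ht, fun y hy hty => mem_zero.2 ⟨t, ht, fun x hx htx => ?_⟩⟩
      have h1 : (min x y, y₀) ∈ E := by
        refine ht' _ ?_ (le_min htx hty)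
        rcases min_choice x y with h1 | h1 <;> rw [h1] <;> assumption
      have hlt : ∀ s ∈ L, s ≤ y₀ := by
        intro s hs
        by_contra hcon
        exact hyL (L.lower (not_le.1 hcon).le hs)
      exact hn.2 (min x y) y₀ x y h1 (min_le_left _ _) (hlt x hx) (min_le_right _ _) (hlt y hy)
  · obtain ⟨t, ht, ht'⟩ := mem_one.1 hy₀
    by_cases hyL : y₀ ∈ L
    · refine mem_one.2 ⟨t, ht, fun y hy hty => mem_one.2 ⟨t, ht, fun x hx htx => ?_⟩⟩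
      have h1 : (max x y, y₀) ∈ E := by
        refine ht' _ ?_ (max_le htx hty)
        rcases max_choice x y with h1 | h1 <;> rw [h1] <;> assumption
      have hlt : ∀ s, s ∉ L → y₀ ≤ s := by
        intro s hs
        by_contra hcon
        exact hs (L.lower (not_le.1 hcon).le hyL)
      exact hn.2 y₀ (max x y) x y (hn.1 _ _ h1) (hlt x hx) (le_max_left _ _) (hlt y hy)
        (le_max_right _ _)
    · have hm : min t y₀ ∉ L := by
        rcases min_choice t y₀ with h1 | h1 <;> rw [h1] <;> assumption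
      refine mem_one.2 ⟨min t y₀, hm, fun y hy hty => mem_one.2 ⟨min t y₀, hm,
        fun x hx htx => ?_⟩⟩
      have h1 : (min x y, y₀) ∈ E := by
        refine ht' _ ?_ ((min_le_left _ _).trans (htx.trans (min_le_left _ _)))
        rcases min_choice x y with h1 | h1 <;> rw [h1] <;> assumption
      exact hn.2 (min x y) y₀ x y h1 (min_le_left _ _) (htx.trans (min_le_right _ _))
        (min_le_right _ _) (hty.trans (min_le_right _ _))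

/-- The interval entourage attached to `E`. -/
def big (E : Set (X × X)) : Set (Zt 𝓔 × Zt 𝓔) := {p | p.1 = p.2 ∨ Mem p.2.1 (tr E p.1.1)}

theorem big_mem {E : Set (X × X)} (hE : E ∈ 𝓔.ent) (hn : Nice E) : big 𝓔 E ∈ (ext 𝓔).ent := by
  refine ⟨fun z => Or.inl rfl, compo (compo E E) E, 𝓔.comp _ (𝓔.comp E hE E hE) E hE, ?_⟩
  rintro ⟨z, w⟩ (h | h)
  · exact Or.inl h
  · right
    obtain ⟨y₀, hy₀⟩ := Mem.nonempty h
    refine ⟨_, _, hy₀, h, ?_⟩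
    intro a ha b hb
    obtain ⟨a', ha1, ha2⟩ := (Mem.inter hy₀ hb).nonempty
    exact ⟨a', ⟨y₀, ha, hn.1 _ _ ha1⟩, ha2⟩

theorem big_ge {E : Set (X × X)} : hat 𝓔 E ⊆ big 𝓔 E := by
  rintro ⟨z, w⟩ ⟨A, B, hA, hB, hAB⟩
  right
  refine hB.mono ?_
  intro b hb
  exact hA.mono (fun a ha => hAB a ha b hb)

theorem big_interval {E : Set (X × X)} (hE : E ∈ 𝓔.ent) (hn : Nice E) (z : Zt 𝓔) :
    ∃ a b : Zt 𝓔, a ≤ b ∧ {y | (z, y) ∈ big 𝓔 E} = Set.Icc a b := by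
  by_cases hne : (tr E z.1).Nonempty
  · obtain ⟨a, b, ha, hb, hab⟩ := interval (B := bdd 𝓔) (tr_ord hn z.1) hne (by
      intro S hS
      refine ⟨compo E E, 𝓔.comp E hE E hE, ?_⟩
      intro x hx y hy
      obtain ⟨c, hc1, hc2⟩ := (Mem.inter (hS hx) (hS hy)).nonempty
      exact ⟨c, hn.1 _ _ hc1, hc2⟩)
    have hz := (hab z.1 z.2).1 (self_mem 𝓔 hn (𝓔.diag E hE) z.1 z.2 hne)
    refine ⟨⟨a, ha⟩, ⟨b, hb⟩, hz.1.trans hz.2, ?_⟩
    ext w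
    constructor
    · rintro (h | h)
      · simp only at h
        subst h
        exact hz
      · exact (hab w.1 w.2).1 h
    · intro h
      exact Or.inr ((hab w.1 w.2).2 h)
  · refine ⟨z, z, le_rfl, ?_⟩
    ext w
    rw [Set.Icc_self, Set.mem_singleton_iff]
    constructor
    · rintro (h | h)
      · exact h.symm
      · exact absurd (Mem.nonempty h) hne
    · rintro rfl
      exact Or.inl rfl

theorem interval_base (hc : 𝓔.Compatible) : (ext 𝓔).HasIntervalBase := by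
  refine ⟨{W | ∃ E ∈ 𝓔.ent, Nice E ∧ W = big 𝓔 E}, ?_, ?_, ?_⟩
  · rintro _ ⟨E, hE, hn, rfl⟩
    exact big_mem 𝓔 hE hn
  · rintro W ⟨hW, E, hE, hWE⟩
    obtain ⟨E', hE', hEE', hn⟩ := exists_nice 𝓔 hc hE
    refine ⟨_, ⟨E', hE', hn, rfl⟩, ?_⟩
    rintro p hp
    rcases hWE p hp with h | h
    · exact Or.inl h
    · exact big_ge 𝓔 (hat_mono 𝓔 hEE' h)
  · rintro _ ⟨E, hE, hn, rfl⟩ z
    exact big_interval 𝓔 hE hn z

theorem ext_connected (hc : 𝓔.Connected) : (ext 𝓔).Connected := by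
  have key : ∀ z : Zt 𝓔, ∃ x : X, ∃ E ∈ 𝓔.ent, (z, emb 𝓔 x) ∈ hat 𝓔 E := by
    rintro ⟨z, ⟨x, rfl⟩ | ⟨L, rfl, _, t, ht, D, hD, hD'⟩ | ⟨L, rfl, _, t, ht, D, hD, hD'⟩⟩
    · obtain ⟨E, hE, h⟩ := hc x x
      exact ⟨x, E, hE, (hat_emb 𝓔).2 h⟩
    · refine ⟨t, D, hD, {s | s ∈ L ∧ t ≤ s}, {t}, mem_zero.2 ⟨t, ht, fun s hs hts => ⟨hs, hts⟩⟩,
        mem_pos.2 rfl, ?_⟩
      rintro a ha b rfl
      exact hD' a ha _ ⟨ht, le_rfl⟩
    · refine ⟨t, D, hD, {s | s ∉ L ∧ s ≤ t}, {t}, mem_one.2 ⟨t, ht, fun s hs hts => ⟨hs, hts⟩⟩,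
        mem_pos.2 rfl, ?_⟩
      rintro a ha b rfl
      exact hD' a ha _ ⟨ht, le_rfl⟩
  intro z w
  obtain ⟨x, E, hE, h1⟩ := key z
  obtain ⟨y, F, hF, h2⟩ := key w
  obtain ⟨G, hG, h3⟩ := hc x y
  refine ⟨{p | p.1 = p.2 ∨ p ∈ hat 𝓔 (compo (compo E G) (inve F))},
    ⟨fun z => Or.inl rfl, _, 𝓔.comp _ (𝓔.comp E hE G hG) _ (𝓔.inv F hF), fun p hp => hp⟩, ?_⟩
  exact Or.inr (hat_comp 𝓔 (hat_comp 𝓔 h1 ((hat_emb 𝓔).2 h3)) (hat_inv 𝓔 h2))

end construction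

/-- A coarse structure with an interval base is compatible with the order. -/
theorem compatible_of_intervalBase {Z : Type u} [LinearOrder Z] (𝓔 : CoarseStr Z)
    (h : 𝓔.HasIntervalBase) : 𝓔.Compatible := by
  obtain ⟨ℬ, hℬ, hbase, hint⟩ := h
  intro E hE
  obtain ⟨E', hE', hsub⟩ := hbase E hE
  refine ⟨E', hℬ hE', ?_⟩
  intro x y hxy hy x' hx'
  by_contra hcon
  obtain ⟨a, b, _, hab⟩ := hint E' hE' x
  have h1 : x ∈ Set.Icc a b := by rw [← hab]; exact 𝓔.diag E' (hℬ hE') x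
  have h2 : x' ∈ Set.Icc a b := by rw [← hab]; exact hsub hx'
  have h3 : y ∈ Set.Icc a b := ⟨h1.1.trans hxy.le, (not_lt.1 hcon).trans h2.2⟩
  rw [← hab] at h3
  exact hy h3

/-- **Main result**: for every linearly ordered coarse space `(X, 𝓔, ≤)` there is a linearly ordered
coarse space `(Z, 𝓔_Z, ≤)` with an interval base and an asymorphism `f` of `X` onto a subspace `Y`
of `Z`; moreover `f` preserves the order. -/
theorem result {X : Type u} [LinearOrder X] (𝓔 : CoarseStr X) (hconn : 𝓔.Connected)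
    (hcomp : 𝓔.Compatible) :
    ∃ (Z : Type u) (_ : LinearOrder Z) (𝓔Z : CoarseStr Z), 𝓔Z.Connected ∧ 𝓔Z.Compatible ∧
      𝓔Z.HasIntervalBase ∧ ∃ (Y : Set Z) (f : X ≃ Y), MacroUniform 𝓔 (𝓔Z.sub Y) f ∧
        MacroUniform (𝓔Z.sub Y) 𝓔 f.symm ∧ StrictMono f := by
  have hinj : Function.Injective (emb 𝓔) := fun x y h => pos_injective (congrArg Subtype.val h)
  refine ⟨Zt 𝓔, inferInstance, ext 𝓔, ext_connected 𝓔 hconn,
    compatible_of_intervalBase _ (interval_base 𝓔 hcomp), interval_base 𝓔 hcomp,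
    Set.range (emb 𝓔), Equiv.ofInjective _ hinj, ?_, ?_, ?_⟩
  · intro E hE
    refine ⟨_, ⟨{p | p.1 = p.2 ∨ p ∈ hat 𝓔 E}, ⟨fun z => Or.inl rfl, E, hE, fun p hp => hp⟩, rfl⟩,
      ?_⟩
    intro x y hxy
    exact Or.inr ((hat_emb 𝓔).2 hxy)
  · rintro _ ⟨W, ⟨hW, E, hE, hWE⟩, rfl⟩
    refine ⟨E, hE, ?_⟩
    rintro ⟨_, x, rfl⟩ ⟨_, y, rfl⟩ hxy
    rw [Equiv.ofInjective_symm_apply, Equiv.ofInjective_symm_apply]
    rcases hWE _ hxy with h | h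
    · rw [hinj h]
      exact 𝓔.diag E hE y
    · exact (hat_emb 𝓔).1 h
  · intro x y hxy
    exact pos_lt_pos.2 hxy

end Pool.Agent.Results.MP_54b381_gt.IntervalExtension
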